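import Pool.Agent.Y5.F.Q5

/-! Pointwise facts during one stage (Navier-Stokes project E, steps `S_BAR1`, `S_BAR2`). -/

open Set Filter Topology MeasureTheory
open Pool.Agent.Y5.F
open Pool.Agent.Y5.E (At Aw Ut Uw loc)

set_option autoImplicit false

namespace Pool.Agent.Y278.NF

/-! ### Exponentials -/

section seq

variable {κ lam N : ℝ} {L C ℓ : ℕ → ℝ} {B : ℕ → ℕ → ℝ}

lemma lam_le_EE (q : Pk κ lam N L C ℓ B) : lam ≤ EE lam := by
  have := q.EE_lam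
  have := q.lamp
  nlinarith

lemma two_le_EE (q : Pk κ lam N L C ℓ B) : 2 ≤ EE lam := by
  have := q.EE_big
  linarith

/-- the exponentials beat the constants, `N`, and the powers of `lam` -/
lemma tiny (q : Pk κ lam N L C ℓ B) (j k : ℕ) (hk : k ≤ 10) {β : ℝ}
    (h : β ≤ -(2 / 10000) * j - 1 / 1000) :
    10 ^ 40 * N * (2 ^ j * lam ^ (j + k)) * Real.exp (β * lam) ≤ 1 / 10 ^ 20 := by
  have h1 := lam_le_EE q
  have h2 := two_le_EE q
  have h3 := q.EE_big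
  have h4 := q.NE
  have h5 := q.N_one
  have h6 := q.lamp
  have h7 := EE_pos lam
  have h8 : (10 : ℝ) ^ 40 ≤ EE lam := by linarith
  have e : EE lam ^ (2 * j + k + 2) = EE lam * EE lam * (EE lam ^ j * EE lam ^ (j + k)) := by
    ring
  have h9 : 10 ^ 40 * N * (2 ^ j * lam ^ (j + k)) ≤ EE lam ^ (2 * j + k + 2) := by
    rw [e]
    gcongr
  have h10 : EE lam ^ (2 * j + k + 2) * Real.exp (β * lam) ≤ 1 / 10 ^ 20 := by
    apply q.EE_small
    push_cast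
    have hk' : (k : ℝ) ≤ 10 := by exact_mod_cast hk
    have hj : (0 : ℝ) ≤ j := Nat.cast_nonneg j
    linarith
  refine le_trans ?_ h10
  gcongr

/-- variant without the constants -/
lemma tiny1 (q : Pk κ lam N L C ℓ B) (j k : ℕ) (hk : k ≤ 10) {K β : ℝ} (hK0 : 0 ≤ K)
    (hK : K ≤ 10 ^ 20)
    (h : β ≤ -(2 / 10000) * j - 1 / 1000) :
    K * N * lam ^ (j + k) * Real.exp (β * lam) ≤ 1 / 10 ^ 40 := by
  have h1 := tiny q j k hk h
  have h2 : (1 : ℝ) ≤ 2 ^ j := one_le_pow₀ (by norm_num)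
  have h5 := q.N_one
  have h6 : 0 < lam ^ (j + k) := pow_pos q.lamp _
  have h7 := Real.exp_pos (β * lam)
  have h8 : K * N * lam ^ (j + k) * Real.exp (β * lam)
      ≤ 10 ^ 20 * N * (2 ^ j * lam ^ (j + k)) * Real.exp (β * lam) := by
    gcongr
    exact le_mul_of_one_le_left h6.le h2
  have h9 : 10 ^ 40 * N * (2 ^ j * lam ^ (j + k)) * Real.exp (β * lam)
      = 10 ^ 20 * (10 ^ 20 * N * (2 ^ j * lam ^ (j + k)) * Real.exp (β * lam)) := by ring
  rw [h9] at h1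
  refine h8.trans ?_
  have : (10 : ℝ) ^ 20 * (10 ^ 20 * N * (2 ^ j * lam ^ (j + k)) * Real.exp (β * lam))
      ≤ 10 ^ 20 * (1 / 10 ^ 40) := by
    refine h1.trans (le_of_eq ?_)
    norm_num
  exact le_of_mul_le_mul_left this (by norm_num)

end seq

/-! ### Pointwise facts -/

variable {κ lam N : ℝ} {L C ℓ : ℕ → ℝ} {B : ℕ → ℕ → ℝ} {T : ℝ}
  {x w f : ℕ → ℝ → ℝ} {n : ℕ} {σ a : ℕ → ℝ} {t1 t : ℝ}

lemma tI (H : BH κ lam N L C ℓ B T x w f n σ a t1 t) {τ : ℝ} (hτ : τ ∈ Icc (σ n) t) :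
    τ ∈ Ico 0 T :=
  ⟨(Gd.σnn H.h le_rfl).trans hτ.1, (hτ.2.trans_lt H.ht.2).trans_le H.hc.leT⟩

lemma tI0 (H : BH κ lam N L C ℓ B T x w f n σ a t1 t) {τ : ℝ} (hτ : τ ∈ Ioo (σ n) t) :
    τ ∈ Ioo 0 T :=
  ⟨(Gd.σnn H.h le_rfl).trans_lt hτ.1, (hτ.2.trans H.ht.2).trans_le H.hc.leT⟩

lemma tI1 (H : BH κ lam N L C ℓ B T x w f n σ a t1 t) {τ : ℝ} (hτ : τ ∈ Icc (σ n) t) :
    τ ∈ Ico (σ n) t1 := ⟨hτ.1, hτ.2.trans_lt H.ht.2⟩

lemma ap (H : BH κ lam N L C ℓ B T x w f n σ a t1 t) : 0 < a n := Gd.apos H.h n le_rfl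

lemma Gp (H : BH κ lam N L C ℓ B T x w f n σ a t1 t) : 0 < L n * a n :=
  mul_pos (H.g.q.Lp n) (ap H)

lemma xlo (H : BH κ lam N L C ℓ B T x w f n σ a t1 t) {τ : ℝ} (hτ : τ ∈ Icc (σ n) t) :
    9 / 10 * a n < x n τ := (H.hc.act τ (tI1 H hτ)).2

lemma xp (H : BH κ lam N L C ℓ B T x w f n σ a t1 t) {τ : ℝ} (hτ : τ ∈ Icc (σ n) t) :
    0 < x n τ := by
  have := xlo H hτ
  have := ap H
  linarith

/-- bounds of the lower groups and of the group `n` -/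
lemma ub (H : BH κ lam N L C ℓ B T x w f n σ a t1 t) {τ : ℝ} (hτ : τ ∈ Icc (σ n) t) :
    Low lam L x w a n τ ∧ √(Yk κ x w n τ) ≤ 30 * a n ∧ w n τ ≤ 200 * dl1 lam * a n :=
  ((H.g.UB H.h H.hc.leT H.hc.le) n le_rfl).1 τ (tI1 H hτ)

lemma xhi (H : BH κ lam N L C ℓ B T x w f n σ a t1 t) {τ : ℝ} (hτ : τ ∈ Icc (σ n) t) :
    x n τ ≤ 30 * a n :=
  (le_abs_self _).trans ((H.g.x_le (tI H hτ) _).trans (ub H hτ).2.1)

/-- the energy above `n` is small -/
lemma Y1 (H : BH κ lam N L C ℓ B T x w f n σ a t1 t) {τ : ℝ} (hτ : τ ∈ Icc (σ n) t) :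
    √(Yk κ x w (n + 1) τ) ≤ 1 / 100 * x n τ := by
  have h1 := (H.hc.act τ (tI1 H hτ)).1
  have h2 := xp H hτ
  apply Real.sqrt_le_iff.2
  exact ⟨by positivity, h1.le⟩

lemma x1 (H : BH κ lam N L C ℓ B T x w f n σ a t1 t) {τ : ℝ} (hτ : τ ∈ Icc (σ n) t) :
    |x (n + 1) τ| ≤ 1 / 100 * x n τ :=
  (H.g.x_le (tI H hτ) _).trans (Y1 H hτ)

lemma w1 (H : BH κ lam N L C ℓ B T x w f n σ a t1 t) {τ : ℝ} (hτ : τ ∈ Icc (σ n) t) :
    w (n + 1) τ ≤ 1 / 100 * x n τ :=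
  (H.g.w_le (tI H hτ) _).trans (Y1 H hτ)

/-- the ratio is small -/
lemma r_abs (H : BH κ lam N L C ℓ B T x w f n σ a t1 t) {τ : ℝ} (hτ : τ ∈ Icc (σ n) t) :
    |x (n + 1) τ / x n τ| ≤ 1 / 100 := by
  have h1 := x1 H hτ
  have h2 := xp H hτ
  rw [abs_div, abs_of_pos h2, div_le_iff₀ h2]
  exact h1

/-- lower bound of the shifted ratio -/
lemma rt_lo (H : BH κ lam N L C ℓ B T x w f n σ a t1 t) {τ : ℝ} (hτ : τ ∈ Icc (σ n) t) :
    74 / 100 * C n ≤ rt C x n τ := by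
  have hC := H.g.q.Cp n
  unfold rt
  rcases hτ.2.eq_or_lt with h1 | h1
  · have := H.hr
    rw [h1]
    linarith
  · have := (H.hy τ ⟨hτ.1, h1⟩).r
    linarith

lemma rt_pos (H : BH κ lam N L C ℓ B T x w f n σ a t1 t) {τ : ℝ} (hτ : τ ∈ Icc (σ n) t) :
    0 < rt C x n τ := by
  have hC := H.g.q.Cp n
  have := rt_lo H hτ
  linarith

/-- upper bound of the shifted ratio -/
lemma rt_hi (H : BH κ lam N L C ℓ B T x w f n σ a t1 t) {τ : ℝ} (hτ : τ ∈ Icc (σ n) t) :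
    rt C x n τ ≤ 1 / 100 + 99 / 100 * C n := by
  have h1 := (abs_le.1 (r_abs H hτ)).2
  unfold rt
  linarith

lemma rt_hi' (H : BH κ lam N L C ℓ B T x w f n σ a t1 t) {τ : ℝ} (hτ : τ ∈ Icc (σ n) t) :
    rt C x n τ ≤ 11 / 1000 := by
  have h1 := rt_hi H hτ
  have h2 := H.g.q.C_small n
  linarith

/-- the mode `n + 1` in terms of the shifted ratio -/
lemma x1_le (H : BH κ lam N L C ℓ B T x w f n σ a t1 t) {τ : ℝ} (hτ : τ ∈ Icc (σ n) t) :
    |x (n + 1) τ| ≤ (rt C x n τ + C n) * x n τ := by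
  have hC := H.g.q.Cp n
  have h2 := xp H hτ
  have h3 : x (n + 1) τ = (rt C x n τ - 99 / 100 * C n) * x n τ := by
    unfold rt
    field_simp
    ring
  have h4 := rt_pos H hτ
  rw [h3, abs_mul, abs_of_pos h2]
  gcongr
  rw [abs_le]
  constructor <;> linarith

/-- lower bound of the exponent -/
lemma th_lo (H : BH κ lam N L C ℓ B T x w f n σ a t1 t) {τ : ℝ} (hτ : τ ∈ Icc (σ n) t) :
    -(30402 / 1000000) * lam ≤ th lam C x n τ := by
  have hC := H.g.q.Cp n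
  have hl := H.g.q.lamp
  have h1 := rt_lo H hτ
  have h2 := rt_pos H hτ
  have h3 : -(301 / 10000) * lam ≤ Real.log (C n) :=
    (Real.le_log_iff_exp_le hC).2 (H.g.q.C_lo n)
  have h4 : Real.log (C n) ≤ Real.log (rt C x n τ) + Real.log 100 := by
    rw [← Real.log_mul h2.ne' (by norm_num)]
    apply Real.log_le_log hC
    linarith
  have h5 : 0 ≤ 101 / 100 * lam * rt C x n τ := by positivity
  unfold th
  linarith

/-- upper bound of the exponent -/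
lemma th_hi (H : BH κ lam N L C ℓ B T x w f n σ a t1 t) {τ : ℝ} (hτ : τ ∈ Icc (σ n) t) :
    th lam C x n τ ≤ 102 / 10000 * lam := by
  have hC := H.g.q.C_small n
  have hl := H.g.q.lam_big
  have h1 := rt_hi H hτ
  have h2 := rt_pos H hτ
  have h4 : Real.log (rt C x n τ) + Real.log 100 ≤ 1 := by
    rw [← Real.log_mul h2.ne' (by norm_num)]
    have := Real.log_le_sub_one_of_pos (by positivity : 0 < rt C x n τ * 100)
    linarith
  have h5 : lam * rt C x n τ ≤ lam * (1 / 100 + 1 / 10 ^ 20) := by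
    have : 0 < lam := by linarith
    gcongr
    linarith
  unfold th
  nlinarith

/-- derivative of the exponent -/
lemma th_deriv (H : BH κ lam N L C ℓ B T x w f n σ a t1 t) {τ : ℝ} (hτ : τ ∈ Ioo (σ n) t) :
    ∃ θ, HasDerivAt (th lam C x n) θ τ ∧
      100798 / 100000 * (L n * x n τ * (1 + lam * rt C x n τ)) ≤ θ := by
  have hτ' : τ ∈ Icc (σ n) t := ⟨hτ.1.le, hτ.2.le⟩
  obtain ⟨r', h1, h2⟩ := H.hd τ hτ
  have hr := rt_pos H hτ'
  have hl := H.g.q.lamp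
  have h3 : HasDerivAt (rt C x n) r' τ := h1.add_const (99 / 100 * C n)
  have h4 : HasDerivAt (th lam C x n)
      (101 / 100 * (r' / rt C x n τ) + 101 / 100 * lam * r') τ :=
    (((h3.log hr.ne').add_const (Real.log 100)).const_mul (101 / 100)).add
      (h3.const_mul (101 / 100 * lam))
  refine ⟨_, h4, ?_⟩
  have h5 : 998 / 1000 * (L n * x n τ) ≤ r' / rt C x n τ := by
    rw [le_div_iff₀ hr]
    linarith
  have h6 : lam * (998 / 1000 * (L n * x n τ * rt C x n τ)) ≤ lam * r' := by gcongr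
  linarith

/-- continuity of the exponent -/
lemma th_cont (H : BH κ lam N L C ℓ B T x w f n σ a t1 t) :
    ContinuousOn (th lam C x n) (Icc (σ n) t) := by
  have hsub : Icc (σ n) t ⊆ Ico 0 T := fun τ hτ => tI H hτ
  have h1 : ContinuousOn (rt C x n) (Icc (σ n) t) := by
    unfold rt
    exact (((H.g.cont (n + 1)).mono hsub).div ((H.g.cont n).mono hsub)
      (fun τ hτ => (xp H hτ).ne')).add continuousOn_const
  unfold th
  exact ((((h1.log fun τ hτ => (rt_pos H hτ).ne').add continuousOn_const).const_smul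
    (101 / 100 : ℝ))).add (continuousOn_const.mul h1)

end Pool.Agent.Y278.NF
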